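import Mathlib
import Pool.Prelude.Def_H_3587d628
import Pool.Agent.P.MP_26ce3f_co.All.Step
import Pool.Agent.P.MP_26ce3f_co.All.Easy

namespace Pool.Agent.Results.MP_26ce3f_co.Dichotomy

open Pool.Agent.P.MP_26ce3f_co

/-- Deciding whether a list of coefficients (in binary) is a `t`-spectrum over `k` letters is in `P`
in the cases `k = 1`, `t = 1` and `k = t = 2`, and is NP-hard under polynomial-time many-one
reductions in every other case. -/
theorem result (k t : ℕ) (hk : 1 ≤ k) (ht : 1 ≤ t) :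
    ((k = 1 ∨ t = 1 ∨ (k = 2 ∧ t = 2)) → specLang k t ∈ N68a2faeb.P) ∧
    (¬ (k = 1 ∨ t = 1 ∨ (k = 2 ∧ t = 2)) →
      ∀ L ∈ N68a2faeb.NP, ∃ f : List Bool → List Bool,
        N68a2faeb.IsPolyTime f ∧ ∀ x : List Bool, L x = specLang k t (f x)) :=
  ⟨easy_P hk ht, all_hard hk ht⟩

end Pool.Agent.Results.MP_26ce3f_co.Dichotomy
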