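import Mathlib
import Pool.Prelude.Def_H_3587d628
import Pool.Agent.P.MP_26ce3f_co.PS.Mem

namespace Pool.Agent.Results.MP_26ce3f_co.PSpaceComplete

open Pool.Agent.P.MP_26ce3f_co

/-- For all but finitely many pairs `(k, t)` with `k ≥ 2` and `t ≥ 3`, deciding whether a list of
coefficients (in binary) is a `t`-spectrum over `k` letters is PSPACE-complete under
polynomial-time many-one reductions. -/
theorem result : ∃ N : ℕ, ∀ k t : ℕ, 2 ≤ k → 3 ≤ t → N ≤ k + t →
    specLang k t ∈ PSPACE ∧ ∀ L ∈ PSPACE, ∃ f : List Bool → List Bool,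
      N68a2faeb.IsPolyTime f ∧ ∀ x : List Bool, L x = specLang k t (f x) :=
  pspace_complete

end Pool.Agent.Results.MP_26ce3f_co.PSpaceComplete
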