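import Mathlib
import Pool.Agent.P.MP_26ce3f_co.Dich.Main

namespace Pool.Agent.Results.MP_26ce3f_co.QFDichotomy

open Pool.Agent.P.MP_26ce3f_co

/-- The `t`-spectra over `k` letters have a quantifier-free characterisation by addition,
multiplication, integer division, greatest common divisors and order (which may also use the
coefficients of degree less than `t`) exactly when `k = 1`, `t = 1` or `k = t = 2`. -/
theorem result (k t : ℕ) (hk : 1 ≤ k) (ht : 1 ≤ t) :
    (∃ φ : (List (Fin k) → ℤ) → Prop, QF {u | u.length ≤ t} φ ∧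
      (∀ w : List (Fin k), φ fun u => (occ w u : ℤ)) ∧
      ∀ c : List (Fin k) → ℕ, (φ fun u => (c u : ℤ)) →
        ∃ w : List (Fin k), ∀ u : List (Fin k), u.length = t → occ w u = c u) ↔
    k = 1 ∨ t = 1 ∨ (k = 2 ∧ t = 2) :=
  hasQF_iff hk ht

end Pool.Agent.Results.MP_26ce3f_co.QFDichotomy
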