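import Mathlib
import Pool.Prelude.Def_H_3587d628
import Pool.Agent.P.MP_26ce3f_co.All.Step

namespace Pool.Agent.Results.MP_26ce3f_co.TwoNPComplete

open Pool.Agent.P.MP_26ce3f_co

/-- For every alphabet with at least three letters, deciding whether a list of coefficients (in
binary) is a `2`-spectrum is NP-complete under polynomial-time many-one reductions. -/
theorem result (k : ℕ) (hk : 3 ≤ k) : specLang k 2 ∈ N68a2faeb.NP ∧
    ∀ L ∈ N68a2faeb.NP, ∃ f : List Bool → List Bool,
      N68a2faeb.IsPolyTime f ∧ ∀ x : List Bool, L x = specLang k 2 (f x) :=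
  ⟨two_np k (by omega), all_hard (by omega) (by omega) (by omega)⟩

end Pool.Agent.Results.MP_26ce3f_co.TwoNPComplete
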